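import Pool.Agent.N818.IL.Stm
import Pool.Agent.Z864.LQ.Lq

/-!
# IL-ISQ: squares are classes of points near the origin (helper702)
-/

set_option autoImplicit false

namespace Pool.Agent.N702.IL

/-- **IL-ISQ** -/
theorem t_ISQ : Pool.Agent.N818.IL.S_ISQ := by
  intro a b d hd
  refine ⟨fun p hp hsq => ?_, fun hd0 => ?_⟩
  · have hdK : (d : ℚ_[p]) ≠ 0 := by exact_mod_cast hd
    obtain ⟨N, Y, hN, hY⟩ := Pool.Agent.Z864.LQ.pt_sq p a (a ^ 2 - 4 * b)
    push_cast at hY
    obtain ⟨e, he⟩ := hsq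
    have he0 : e ≠ 0 := by
      rintro rfl
      apply hdK
      rw [he, mul_zero]
    refine ⟨N ^ 2, Y, N / e, pow_ne_zero 2 hN, hY, ?_⟩
    rw [he]
    field_simp
  · have hdR : (0 : ℝ) < d := by exact_mod_cast hd0
    set c : ℝ := (a : ℝ) ^ 2 - 4 * b with hcdef
    set X : ℝ := 1 + |2 * (a : ℝ)| + |c| with hX
    have a1 := le_abs_self (2 * (a : ℝ))
    have a2 := neg_abs_le c
    have a3 := abs_nonneg (2 * (a : ℝ))
    have a4 := abs_nonneg c
    have hX1 : 1 ≤ X := by linarith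
    have h1 : 0 < X ^ 2 - 2 * a * X + c := by nlinarith
    have h2 : 0 < X ^ 3 - 2 * a * X ^ 2 + c * X := by
      have : X ^ 3 - 2 * a * X ^ 2 + c * X = X * (X ^ 2 - 2 * a * X + c) := by ring
      rw [this]
      positivity
    refine ⟨X, Real.sqrt (X ^ 3 - 2 * a * X ^ 2 + c * X), Real.sqrt (X / d), by linarith,
      Real.sq_sqrt h2.le, ?_⟩
    rw [Real.sq_sqrt (by positivity)]
    field_simp

end Pool.Agent.N702.IL
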